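import Mathlib
import Pool.Agent.H574R3.CS.Stmts

/-!
Project H574-CS, task Even3 (helper620).
-/

set_option autoImplicit false

namespace Pool.Agent.H574R3.CS

open Polynomial

theorem taskEven3 : TaskEven3 := by
  intro tF tAff t1 t2 tE1 _ _ K _ _ a n h2 hcard hnf q1 q2 q3 m1 m2 m3 h1 hh2 h3 l1 l2 k han
  have hm2 : n.m3^2 ≠ 0 := pow_ne_zero 2 m3
  have han' : ∀ X Y : K, n.a/n.m3^2 * X ^ 3 + n.b/n.m3^2 * X ^ 2 * Y + n.c/n.m3^2 * X * Y ^ 2
      + n.d/n.m3^2 * Y ^ 3 = 0 → X = 0 ∧ Y = 0 := by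
    intro X Y h
    apply han
    have e : n.a * X ^ 3 + n.b * (X ^ 2 * Y) + n.c * (X * Y ^ 2) + n.d * Y ^ 3
        = n.m3^2 * (n.a/n.m3^2 * X ^ 3 + n.b/n.m3^2 * X ^ 2 * Y + n.c/n.m3^2 * X * Y ^ 2
      + n.d/n.m3^2 * Y ^ 3) := by
      field_simp
    rw [e, h, mul_zero]
  rcases tF K hcard (n.a/n.m3^2) (n.b/n.m3^2) (n.c/n.m3^2) (n.d/n.m3^2) han' with
    ⟨X0, Y0, W, e, g⟩ | ⟨p, q, r, s, β, hdet, hβ0, hβ1, E1, E2, E3, E4⟩
  · -- a good point
    obtain ⟨hA, hC⟩ := tAff t1 t2 K a n X0 Y0 0 0 (n.m3 * W) hnf q1 q2 q3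
    apply hC
    have e' : n.m3^2 * W^2 + n.m3^2 * W = n.a * X0 ^ 3 + n.b * X0 ^ 2 * Y0 + n.c * X0 * Y0 ^ 2
      + n.d * Y0 ^ 3 := by
      have : n.m3^2 * (W^2 + W) = n.m3^2 * (n.a/n.m3^2 * X0 ^ 3 + n.b/n.m3^2 * X0 ^ 2 * Y0
        + n.c/n.m3^2 * X0 * Y0 ^ 2 + n.d/n.m3^2 * Y0 ^ 3) := by rw [e]
      have r : n.m3^2 * (n.a/n.m3^2 * X0 ^ 3 + n.b/n.m3^2 * X0 ^ 2 * Y0
        + n.c/n.m3^2 * X0 * Y0 ^ 2 + n.d/n.m3^2 * Y0 ^ 3) =
          n.a * X0 ^ 3 + n.b * X0 ^ 2 * Y0 + n.c * X0 * Y0 ^ 2 + n.d * Y0 ^ 3 := by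
        field_simp
      rw [r] at this
      linear_combination this
    have am3 : (n.aff X0 Y0 0 0 (n.m3 * W)).m3 = n.m3 := by
      simp [NF.aff, m1, m2, h2]
    have ah1 : (n.aff X0 Y0 0 0 (n.m3 * W)).h1 = n.a * X0 + n.b * Y0 := by
      simp only [NF.aff, h1, m1]
      linear_combination h2 * (n.a * X0)
    have ah3 : (n.aff X0 Y0 0 0 (n.m3 * W)).h3 = n.c * X0 + n.d * Y0 := by
      simp only [NF.aff, h3, m2]
      linear_combination h2 * (n.d * Y0)
    have al1 : (n.aff X0 Y0 0 0 (n.m3 * W)).l1 = n.a * X0^2 + n.c * Y0^2 := by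
      simp only [NF.aff, h1, hh2, l1, m1]
      linear_combination h2 * (n.a * X0^2 + n.b * X0 * Y0)
    have al2 : (n.aff X0 Y0 0 0 (n.m3 * W)).l2 = n.b * X0^2 + n.d * Y0^2 := by
      simp only [NF.aff, h3, hh2, l2, m2]
      linear_combination h2 * (n.d * Y0^2 + n.c * X0 * Y0)
    refine tE1 ‹_› ‹_› K _ _ h2 hA rfl rfl rfl ?_ ?_ ?_ ?_ ?_ ?_
    · simp [NF.aff, m1]
    · simp [NF.aff, m2]
    · rw [am3]; exact m3
    · simp only [NF.aff, h1, hh2, h3, l1, l2, k, m1, m2]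
      linear_combination (-1 : K) * e' + h2 * (n.m3^2 * W^2 + n.m3^2 * W)
    · intro X Y h
      exact han X Y h
    · rintro ⟨g1, -, g3⟩
      apply g
      rw [am3, ah1, al1] at g1
      rw [am3, ah3, al2] at g3
      constructor
      · have : n.a/n.m3^2 * X0 + n.b/n.m3^2 * Y0 = (n.m3^2 * (n.a * X0 + n.b * Y0))/(n.m3^2)^2 := by
          field_simp
        rw [this, g1]
        field_simp
      · have : n.c/n.m3^2 * X0 + n.d/n.m3^2 * Y0 = (n.m3^2 * (n.c * X0 + n.d * Y0))/(n.m3^2)^2 := by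
          field_simp
        rw [this, g3]
        field_simp
  · -- the special surface
    have hβ : β^2 + β + 1 = 0 := by
      have h3' : β^3 = 1 := by
        have := FiniteField.pow_card_sub_one_eq_one β hβ0
        rwa [hcard] at this
      have : (β - 1) * (β^2 + β + 1) = 0 := by linear_combination h3'
      rcases mul_eq_zero.mp this with h | h
      · exact absurd (sub_eq_zero.mp h) hβ1
      · exact h
    have F1 : n.a * p ^ 3 + n.b * p ^ 2 * r + n.c * p * r ^ 2 + n.d * r ^ 3 = n.m3^2 := by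
      field_simp at E1
      linear_combination E1
    have F2 : 3 * n.a * p ^ 2 * q + n.b * (p ^ 2 * s + 2 * p * q * r)
        + n.c * (q * r ^ 2 + 2 * p * r * s) + 3 * n.d * r ^ 2 * s = 0 := by
      field_simp at E2
      linear_combination E2
    have F3 : 3 * n.a * p * q ^ 2 + n.b * (q ^ 2 * r + 2 * p * q * s)
        + n.c * (p * s ^ 2 + 2 * q * r * s) + 3 * n.d * r * s ^ 2 = 0 := by
      field_simp at E3
      linear_combination E3
    have F4 : n.a * q ^ 3 + n.b * q ^ 2 * s + n.c * q * s ^ 2 + n.d * s ^ 3 = n.m3^2 * β := by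
      field_simp at E4
      linear_combination E4
    -- the same equations in `K[X]`
    have P2 : (2 : K[X]) = 0 := by
      have := congrArg (C : K → K[X]) h2
      rwa [map_ofNat, map_zero] at this
    have Pβ : (C β : K[X])^2 + C β + 1 = 0 := by
      have := congrArg (C : K → K[X]) hβ
      simpa using this
    have G1 : (C n.a : K[X]) * C p ^ 3 + C n.b * C p ^ 2 * C r + C n.c * C p * C r ^ 2
        + C n.d * C r ^ 3 = C n.m3^2 := by
      have := congrArg (C : K → K[X]) F1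
      simpa using this
    have G2 : 3 * (C n.a : K[X]) * C p ^ 2 * C q + C n.b * (C p ^ 2 * C s + 2 * C p * C q * C r)
        + C n.c * (C q * C r ^ 2 + 2 * C p * C r * C s) + 3 * C n.d * C r ^ 2 * C s = 0 := by
      have := congrArg (C : K → K[X]) F2
      simpa only [map_add, map_mul, map_pow, map_ofNat, map_zero] using this
    have G3 : 3 * (C n.a : K[X]) * C p * C q ^ 2 + C n.b * (C q ^ 2 * C r + 2 * C p * C q * C s)
        + C n.c * (C p * C s ^ 2 + 2 * C q * C r * C s) + 3 * C n.d * C r * C s ^ 2 = 0 := by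
      have := congrArg (C : K → K[X]) F3
      simpa only [map_add, map_mul, map_pow, map_ofNat, map_zero] using this
    have G4 : (C n.a : K[X]) * C q ^ 3 + C n.b * C q ^ 2 * C s + C n.c * C q * C s ^ 2
        + C n.d * C s ^ 3 = C n.m3^2 * C β := by
      have := congrArg (C : K → K[X]) F4
      simpa using this
    -- the curve
    obtain ⟨N, hN⟩ : ∃ N : K[X], N = C β * X ^ 3 := ⟨_, rfl⟩
    refine ⟨![C p * (N^2 + N) + C q * (X * (N^2 + N + 1)),
      C r * (N^2 + N) + C s * (X * (N^2 + N + 1)), N, C n.m3 * (N^3 + C β * N + 1)], ?_,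
      ⟨0, algebraMap K _ n.m3, ?_, ?_⟩, ⟨3, 2, ?_⟩⟩
    · rw [hnf.1]
      unfold NF.F
      simp only [q1, q2, q3, m1, m2, h1, hh2, h3, l1, l2, k, map_zero, Matrix.cons_val_zero,
        Matrix.cons_val_one, Matrix.cons_val, ← C_eq_algebraMap, zero_mul, add_zero, mul_zero,
        zero_add]
      have key : C β * (X * (N^2 + N + 1))^3 = N * (N^2 + N + 1)^3 := by
        rw [hN]; ring
      linear_combination (N^2 + N)^3 * G1 + (N^2 + N)^2 * (X * (N^2 + N + 1)) * G2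
        + (N^2 + N) * (X * (N^2 + N + 1))^2 * G3 + (X * (N^2 + N + 1))^3 * G4
        + C n.m3^2 * key
        + C n.m3^2 * N * (N^6 + 2 * N^5 + (5 + C β) * N^4 + 6 * N^3 + 3 * N^2 + (2 + C β) * N + 1) * P2
        + C n.m3^2 * N * N^2 * Pβ
    · simpa using m3
    · intro i
      fin_cases i <;> simp [hN, e3]
    · simp [e3, hN, hβ0]

end Pool.Agent.H574R3.CS
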